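import Pool.Agent.Lib.MP_7c147c_pr.Heat

namespace Pool.Agent.Results.MP_7c147c_pr.HighDegree

open Pool.Agent.Lib.MP_7c147c_pr

theorem result (V : Type) [Fintype V] [DecidableEq V] [Nontrivial V] (G : SimpleGraph V)
    [DecidableRel G.Adj] (hc : G.Connected) (ht : ∀ u w, ∃ φ : G ≃g G, φ u = w) (v : V)
    (t : ℕ) (h1 : 1 ≤ t) :
    greedyCover G v ≤ ENNReal.ofReal (1 + 544 * Fintype.card V * t *
      ((G.adjMatrix ℝ ^ (2 * t)) v v / (G.degree v : ℝ) ^ (2 * t)) / G.degree v) *
        simpleCover G v := by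
  have hd0 : ∀ v, 0 < G.degree v := fun v => hc.preconnected.degree_pos_of_nontrivial v
  have hd : ∀ w, G.degree w = G.degree v := fun w => by
    obtain ⟨φ, rfl⟩ := ht v w
    exact φ.degree_eq v
  obtain ⟨ρ, hρ⟩ := exists_rho hc
  refine (heat hc ht (hd0 v) hd v h1).trans
    (le_trans ?_ (mul_le_mul_right (lower hc hρ hd0 ht v) _))
  have p0 : 0 ≤ (G.adjMatrix ℝ ^ (2 * t)) v v / (G.degree v : ℝ) ^ (2 * t) := by
    rw [G.adjMatrix_pow_apply_eq_card_walk]
    positivity
  have nd : Fintype.card V * G.degree v = 2 * G.edgeFinset.card := by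
    rw [← G.sum_degrees_eq_twice_card_edges]
    simp [hd]
  have d1 := hd0 v
  have n1 : 0 < Fintype.card V := Fintype.card_pos
  have hE : 1 ≤ G.edgeFinset.card := by nlinarith
  have a1 : (1 : ℝ) ≤ harmonic G.edgeFinset.card := by simpa using harm_mono hE
  have a2 : (harmonic (Fintype.card V) : ℝ) ≤ 2 * harmonic G.edgeFinset.card := by
    refine (harm_mono (m := G.edgeFinset.card + G.edgeFinset.card) (by nlinarith)).trans ?_
    rw [harm_eq, harm_eq, Finset.sum_range_add, two_mul]
    refine add_le_add le_rfl (Finset.sum_le_sum fun i _ => ?_)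
    exact one_div_le_one_div_of_le (by positivity) (by push_cast; linarith [Nat.cast_nonneg (α := ℝ) G.edgeFinset.card])
  have nd' : (G.edgeFinset.card : ℝ) = Fintype.card V * G.degree v / 2 := by
    rw [eq_div_iff two_ne_zero, mul_comm]
    exact_mod_cast nd.symm
  have d0 : (0 : ℝ) < G.degree v := by exact_mod_cast d1
  generalize (G.adjMatrix ℝ ^ (2 * t)) v v / (G.degree v : ℝ) ^ (2 * t) = p at p0 ⊢
  generalize (harmonic G.edgeFinset.card : ℝ) = a at a1 a2 ⊢
  rw [← ENNReal.ofReal_mul (by positivity)]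
  refine ENNReal.ofReal_le_ofReal ?_
  have e1 : (1 + 544 * Fintype.card V * t * p / G.degree v) * (G.edgeFinset.card * a) =
      G.edgeFinset.card * a + 136 * Fintype.card V ^ 2 * t * p * (2 * a) := by
    rw [nd']
    field_simp
    ring
  rw [e1]
  exact add_le_add (le_mul_of_one_le_right (Nat.cast_nonneg _) a1)
    (mul_le_mul_of_nonneg_left a2 (by positivity))

/-- The case `t = 1`: the ratio is at most `1 + 544 n / d ^ 2`. -/
theorem dense (V : Type) [Fintype V] [DecidableEq V] [Nontrivial V] (G : SimpleGraph V)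
    [DecidableRel G.Adj] (hc : G.Connected) (ht : ∀ u w, ∃ φ : G ≃g G, φ u = w) (v : V) :
    greedyCover G v ≤ ENNReal.ofReal (1 + 544 * Fintype.card V / (G.degree v : ℝ) ^ 2) *
      simpleCover G v := by
  have d0 : (0 : ℝ) < G.degree v := by
    exact_mod_cast hc.preconnected.degree_pos_of_nontrivial v
  have h := result V G hc ht v 1 le_rfl
  rw [mul_one, sq (G.adjMatrix ℝ), G.adjMatrix_mul_self_apply_self] at h
  refine h.trans (le_of_eq ?_)
  congr 3
  push_cast
  field_simp

end Pool.Agent.Results.MP_7c147c_pr.HighDegree
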