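import Pool.Agent.Lib.MP_7c147c_pr.Tour

namespace Pool.Agent.Results.MP_7c147c_pr.LinearDiam

open Pool.Agent.Lib.MP_7c147c_pr

theorem result (V : Type) [Fintype V] [DecidableEq V] [Nontrivial V] (G : SimpleGraph V)
    [DecidableRel G.Adj] (hc : G.Connected) (v : V) :
    greedyCover G v ≤ ENNReal.ofReal (G.edgeFinset.card +
        6 * G.edgeFinset.card * (Fintype.card V - 1)) ∧
      ((∀ u w, ∃ φ : G ≃g G, φ u = w) → greedyCover G v ≤ ENNReal.ofReal (1 +
        6 * G.edgeFinset.card * (Fintype.card V - 1) / (G.diam : ℝ) ^ 2) * simpleCover G v) := by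
  have hd : ∀ v, 0 < G.degree v := fun v => hc.preconnected.degree_pos_of_nontrivial v
  have h1 := tour_main hc hd v
  refine ⟨h1, fun ht => h1.trans ?_⟩
  obtain ⟨ρ, hρ⟩ := exists_rho hc
  have hE : 0 < G.edgeFinset.card := by
    obtain ⟨w, hw⟩ := (G.degree_pos_iff_exists_adj v).1 (hd v)
    exact Finset.card_pos.2 ⟨s(v, w), by simpa using hw⟩
  have hE' : (0 : ℝ) < G.edgeFinset.card := by exact_mod_cast hE
  have a1 : (1 : ℝ) ≤ harmonic G.edgeFinset.card := by
    have := harm_step (m := G.edgeFinset.card) (m' := 0) (Nat.zero_le _)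
    simpa [hE.ne'] using this
  have a2 : ENNReal.ofReal G.edgeFinset.card ≤ simpleCover G v :=
    (ENNReal.ofReal_le_ofReal (by nlinarith)).trans (lower hc hρ hd ht v)
  have a3 := diam_le_simple hc hd ht v
  have n1 : (1 : ℝ) ≤ Fintype.card V := by exact_mod_cast Fintype.card_pos_iff.2 ⟨v⟩
  have g0 : (0 : ℝ) < G.diam := by
    exact_mod_cast Nat.pos_of_ne_zero (G.diam_ne_zero_of_ediam_ne_top
      (SimpleGraph.connected_iff_ediam_ne_top.1 hc))
  set X : ℝ := 6 * G.edgeFinset.card * (Fintype.card V - 1) with hX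
  have X0 : 0 ≤ X := mul_nonneg (by positivity) (by linarith)
  rw [ENNReal.ofReal_add hE'.le X0, ENNReal.ofReal_add zero_le_one (by positivity), add_mul,
    ENNReal.ofReal_one, one_mul]
  refine add_le_add a2 (le_trans ?_ (mul_le_mul_right a3 _))
  rw [← ENNReal.ofReal_mul (by positivity), div_mul_cancel₀ _ (by positivity)]

end Pool.Agent.Results.MP_7c147c_pr.LinearDiam
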