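import Pool.Agent.Lib.MP_7c147c_pr.Cube

namespace Pool.Agent.Results.MP_7c147c_pr.Profile

open Pool.Agent.Lib.MP_7c147c_pr

theorem result (V : Type) [Fintype V] [DecidableEq V] [Nontrivial V] (G : SimpleGraph V)
    [DecidableRel G.Adj] (hc : G.Connected) (ρ : ℝ) (hρ0 : 0 ≤ ρ)
    (hρ : ∀ (f : V → ℝ) x y, (f x - f y) ^ 2 ≤ ρ * energy G f)
    (Φ : ℕ → ℝ) (hΦ0 : ∀ j, 0 ≤ Φ j)
    (hΦ : ∀ (S : Finset V) (f : V → ℝ), S.Nonempty → (∀ v ∈ S, f v = 0) →
      (∑ v, G.degree v * f v) ^ 2 ≤ Φ S.card * energy G f) (v : V) :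
    greedyCover G v ≤ ENNReal.ofReal (G.edgeFinset.card +
        3 / 2 * ∑ j ∈ Finset.range (Fintype.card V), √(ρ * Φ (j + 1) / (j + 1))) ∧
      ((∀ u w, ∃ φ : G ≃g G, φ u = w) → greedyCover G v ≤ ENNReal.ofReal (1 +
        3 / 2 * (∑ j ∈ Finset.range (Fintype.card V), √(ρ * Φ (j + 1) / (j + 1))) /
          (G.edgeFinset.card * Real.log (G.edgeFinset.card + 1))) * simpleCover G v) := by
  have hd : ∀ v, 0 < G.degree v := fun v => hc.preconnected.degree_pos_of_nontrivial v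
  have h1 := profile hρ0 hd hρ Φ (fun S h hS H => by
    have h2 := hΦ S h hS H.1
    rw [← hit_energy H] at h2
    rcases (energy_nonneg G h).eq_or_lt with z | z
    · rw [← z]; exact hΦ0 _
    · nlinarith) v
  rw [Finset.sum_congr rfl fun j _ =>
    (Real.sqrt_div (mul_nonneg hρ0 (hΦ0 (j + 1))) ((j : ℝ) + 1)).symm] at h1
  refine ⟨h1, fun ht => h1.trans (le_trans ?_ (mul_le_mul_right (lower hc hρ hd ht v) _))⟩
  have hE : 0 < G.edgeFinset.card := by
    obtain ⟨w, hw⟩ := (G.degree_pos_iff_exists_adj v).1 (hd v)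
    exact Finset.card_pos.2 ⟨s(v, w), by simpa using hw⟩
  have hE' : (0 : ℝ) < G.edgeFinset.card := by exact_mod_cast hE
  have a1 : (1 : ℝ) ≤ harmonic G.edgeFinset.card := by
    have := harm_step (m := G.edgeFinset.card) (m' := 0) (Nat.zero_le _)
    simpa [hE.ne'] using this
  have a2 := log_add_one_le_harmonic G.edgeFinset.card
  push_cast at a2
  have a3 : 0 < Real.log ((G.edgeFinset.card : ℝ) + 1) := Real.log_pos (by linarith)
  set X := 3 / 2 * ∑ j ∈ Finset.range (Fintype.card V), √(ρ * Φ (j + 1) / (j + 1)) with hX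
  have X0 : 0 ≤ X := by positivity
  rw [← ENNReal.ofReal_mul (by positivity)]
  refine ENNReal.ofReal_le_ofReal ?_
  have a4 : X ≤ X / (G.edgeFinset.card * Real.log (G.edgeFinset.card + 1)) *
      (G.edgeFinset.card * harmonic G.edgeFinset.card) := by
    rw [div_mul_eq_mul_div, le_div_iff₀ (by positivity)]
    gcongr
  nlinarith

/-- Consequence for regular graphs with logarithmic Sobolev constant at least `1 / σ`. -/
theorem logSob (V : Type) [Fintype V] [DecidableEq V] (G : SimpleGraph V) [DecidableRel G.Adj]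
    (d : ℕ) (hd0 : 0 < d) (hd : G.IsRegularOfDegree d) (σ : ℝ) (hσ0 : 0 ≤ σ)
    (hσ : ∀ f : V → ℝ, d * (∑ v, f v ^ 2 * Real.log (f v ^ 2) -
      (∑ v, f v ^ 2) * Real.log ((∑ v, f v ^ 2) / Fintype.card V)) ≤ σ * energy G f) (v : V) :
    greedyCover G v ≤ ENNReal.ofReal (G.edgeFinset.card + 97 * Fintype.card V * σ) ∧
    ∀ ρ : ℝ, 0 ≤ ρ → (∀ (f : V → ℝ) x y, (f x - f y) ^ 2 ≤ ρ * energy G f) →
      greedyCover G v ≤ ENNReal.ofReal (G.edgeFinset.card +
        17 * Fintype.card V * √(d * ρ * σ * (1 + Real.log (Fintype.card V)))) :=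
  ⟨fk_only hd0 hd.degree_eq hσ0 (fk_of_ls hσ0 hσ) v,
    fun _ h0 h => fk_main hd0 hd.degree_eq h0 hσ0 h (fk_of_ls hσ0 hσ) v⟩

/-- Consequence for the hypercube of any dimension, odd or even. -/
theorem hypercube (d : ℕ) (hd : 0 < d) (G : SimpleGraph (Fin d → Bool)) [i : DecidableRel G.Adj]
    (hG : ∀ x y, G.Adj x y ↔ (Finset.univ.filter fun j => x j ≠ y j).card = 1)
    (v : Fin d → Bool) :
    greedyCover G v ≤ ENNReal.ofReal (215 * G.edgeFinset.card) := by
  obtain rfl : G = cube d := SimpleGraph.ext (funext₂ fun x y => propext (hG x y))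
  obtain rfl : i = fun x y => inferInstanceAs (Decidable (hammingDist x y = 1)) :=
    Subsingleton.elim _ _
  exact cube_cover hd v

end Pool.Agent.Results.MP_7c147c_pr.Profile
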